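import Pool.Agent.H975R3.Star

set_option autoImplicit false

open scoped commutatorElement

namespace Pool.Agent.H975R3

open Pool.Agent.Helper730.SM

/-- a finite subset of an increasing union lies in a member -/
theorem finite_subset_mono {α : Type} (S : ℕ → Set α) (hS : Monotone S) (X : Set α)
    (hX : X.Finite) (h : ∀ x ∈ X, ∃ i, x ∈ S i) : ∃ i, X ⊆ S i := by
  induction X, hX using Set.Finite.induction_on with
  | empty => exact ⟨0, Set.empty_subset _⟩
  | @insert a s _ _ ih =>
    obtain ⟨i, hi⟩ := ih (fun x hx => h x (Set.mem_insert_of_mem _ hx))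
    obtain ⟨j, hj⟩ := h a (Set.mem_insert _ _)
    refine ⟨max i j, ?_⟩
    intro x hx
    rcases hx with rfl | hx
    · exact hS (le_max_right i j) hj
    · exact hS (le_max_left i j) (hi hx)

/-- a finite subset of the union of a chain lies in a member -/
theorem finite_subset_chain {G : Type} [Group G] (c : Set (Subgroup G))
    (hc : IsChain (· ≤ ·) c) (hne : c.Nonempty) (X : Set G) (hX : X.Finite)
    (h : ∀ x ∈ X, ∃ K ∈ c, x ∈ K) : ∃ K ∈ c, X ⊆ K := by
  induction X, hX using Set.Finite.induction_on with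
  | empty =>
    obtain ⟨K, hK⟩ := hne
    exact ⟨K, hK, Set.empty_subset _⟩
  | @insert a s _ _ ih =>
    obtain ⟨K, hK, hKs⟩ := ih (fun x hx => h x (Set.mem_insert_of_mem _ hx))
    obtain ⟨L, hL, hLa⟩ := h a (Set.mem_insert _ _)
    rcases hc.total hK hL with hKL | hLK
    · refine ⟨L, hL, ?_⟩
      intro x hx
      rcases hx with rfl | hx
      · exact hLa
      · exact hKL (hKs hx)
    · refine ⟨K, hK, ?_⟩
      intro x hx
      rcases hx with rfl | hx
      · exact hLK hLa
      · exact hKs hx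

/-- the union of a nonempty chain of normal subgroups is normal -/
theorem sSup_chain_normal {G : Type} [Group G] (c : Set (Subgroup G))
    (hc : IsChain (· ≤ ·) c) (hne : c.Nonempty) (hn : ∀ N ∈ c, N.Normal) : (sSup c).Normal := by
  constructor
  intro x hx g
  rw [Subgroup.mem_sSup_of_directedOn hne hc.directedOn] at hx ⊢
  obtain ⟨K, hK, hxK⟩ := hx
  exact ⟨K, hK, (hn K hK).conj_mem x hxK g⟩

/-- normal closure of a finite set -/
def NFG {G : Type} [Group G] (N : Subgroup G) : Prop :=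
  ∃ X : Set G, X.Finite ∧ N = Subgroup.normalClosure X

theorem sSup_mem_of_nfg {G : Type} [Group G] (c : Set (Subgroup G))
    (hc : IsChain (· ≤ ·) c) (hne : c.Nonempty) (hn : ∀ N ∈ c, N.Normal)
    (h : NFG (sSup c)) : sSup c ∈ c := by
  obtain ⟨X, hX, hXe⟩ := h
  have h1 : ∀ x ∈ X, ∃ K ∈ c, x ∈ K := by
    intro x hx
    have h2 : x ∈ sSup c := by
      rw [hXe]
      exact Subgroup.subset_normalClosure hx
    rwa [Subgroup.mem_sSup_of_directedOn hne hc.directedOn] at h2
  obtain ⟨K, hK, hKX⟩ := finite_subset_chain c hc hne X hX h1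
  haveI := hn K hK
  have h3 : sSup c ≤ K := by
    rw [hXe]
    exact Subgroup.normalClosure_le_normal hKX
  have h4 : sSup c = K := le_antisymm h3 (le_sSup hK)
  rw [h4]
  exact hK

/-- elements acting trivially on `M / B` -/
def cen {G : Type} [Group G] (M B : Subgroup G) (hM : M.Normal) (hB : B.Normal) : Subgroup G where
  carrier := {x | ∀ a ∈ M, ⁅x, a⁆ ∈ B}
  mul_mem' := by
    intro x y hx hy a ha
    have h1 : ⁅x * y, a⁆ = (x * ⁅y, a⁆ * x⁻¹) * ⁅x, a⁆ := by
      simp only [commutatorElement_def]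
      group
    rw [h1]
    exact B.mul_mem (hB.conj_mem _ (hy a ha) x) (hx a ha)
  one_mem' := by
    intro a _
    have h1 : ⁅(1 : G), a⁆ = 1 := commutatorElement_one_left a
    rw [h1]
    exact B.one_mem
  inv_mem' := by
    intro x hx a ha
    have h1 : ⁅x⁻¹, a⁆ = x⁻¹ * ⁅x, a⁆⁻¹ * x⁻¹⁻¹ := by
      simp only [commutatorElement_def]
      group
    rw [h1]
    exact hB.conj_mem _ (B.inv_mem (hx a ha)) x⁻¹

theorem mem_cen {G : Type} [Group G] (M B : Subgroup G) (hM : M.Normal) (hB : B.Normal) (x : G) :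
    x ∈ cen M B hM hB ↔ ∀ a ∈ M, ⁅x, a⁆ ∈ B := Iff.rfl

theorem cen_normal {G : Type} [Group G] (M B : Subgroup G) (hM : M.Normal) (hB : B.Normal) :
    (cen M B hM hB).Normal := by
  constructor
  intro x hx g a ha
  have h1 : ⁅g * x * g⁻¹, a⁆ = g * ⁅x, g⁻¹ * a * g⁻¹⁻¹⁆ * g⁻¹ := by
    simp only [commutatorElement_def]
    group
  rw [h1]
  exact hB.conj_mem _ (hx _ (hM.conj_mem a ha g⁻¹)) g

theorem cen_comm {G : Type} [Group G] (M B : Subgroup G) (hM : M.Normal) (hB : B.Normal) :
    ⁅cen M B hM hB, M⁆ ≤ B := by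
  rw [Subgroup.commutator_le]
  intro x hx a ha
  exact hx a ha

/-- **Main theorem.** -/
theorem maxn_of_nb {G : Type} [Group G] (hNB : NB G) (hfg : Group.FG G) (N : ℕ → Subgroup G)
    (hN : ∀ n, (N n).Normal) (hmono : Monotone N) : ∃ k, ∀ m, k ≤ m → N m = N k := by
  classical
  haveI := hfg
  haveI hcount : Countable G := countable_of_fg hfg
  by_contra hcon
  push Not at hcon
  -- a normal subgroup which is not normally finitely generated
  have hU : ∃ U : Subgroup G, U.Normal ∧ ¬ NFG U := by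
    have hch : IsChain (· ≤ ·) (Set.range N) := by
      rintro _ ⟨i, rfl⟩ _ ⟨j, rfl⟩ _
      rcases le_total i j with h | h
      · exact Or.inl (hmono h)
      · exact Or.inr (hmono h)
    have hne : (Set.range N).Nonempty := ⟨N 0, 0, rfl⟩
    have hn : ∀ K ∈ Set.range N, K.Normal := by
      rintro _ ⟨i, rfl⟩
      exact hN i
    refine ⟨sSup (Set.range N), sSup_chain_normal _ hch hne hn, ?_⟩
    intro h
    obtain ⟨k, hk⟩ := sSup_mem_of_nfg _ hch hne hn h
    obtain ⟨m, hm, hmk⟩ := hcon k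
    apply hmk
    apply le_antisymm
    · rw [hk]
      exact le_sSup ⟨m, rfl⟩
    · exact hmono hm
  -- Zorn
  obtain ⟨U, hUn, hUf⟩ := hU
  have hzorn := zorn_le_nonempty₀ {K : Subgroup G | K.Normal ∧ ¬ NFG K} (by
    intro c hcs hc K hK
    have hne : c.Nonempty := ⟨K, hK⟩
    have hn : ∀ N ∈ c, N.Normal := fun N hN => (hcs hN).1
    refine ⟨sSup c, ⟨sSup_chain_normal c hc hne hn, ?_⟩, fun z hz => le_sSup hz⟩
    intro h
    exact (hcs (sSup_mem_of_nfg c hc hne hn h)).2 h) U ⟨hUn, hUf⟩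
  obtain ⟨M, _, hMmax⟩ := hzorn
  have hM : M.Normal := hMmax.prop.1
  have hMf : ¬ NFG M := hMmax.prop.2
  have hbig : ∀ K : Subgroup G, K.Normal → M ≤ K → ¬ K ≤ M → NFG K := by
    intro K hK hMK hKM
    by_contra h
    exact hKM (hMmax.le_of_ge ⟨hK, h⟩ hMK)
  -- the exhausting sequence
  obtain ⟨e, he⟩ : ∃ e : ℕ → M, Function.Surjective e := exists_surjective_nat M
  let V : ℕ → Subgroup G := fun i => Subgroup.normalClosure ((fun k => (e k : G)) '' {k | k < i})
  haveI hVn : ∀ i, (V i).Normal := fun i => Subgroup.normalClosure_normal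
  have hVmono : Monotone V := by
    intro i j hij
    apply Subgroup.normalClosure_mono
    apply Set.image_mono
    intro k hk
    exact lt_of_lt_of_le hk hij
  have hVM : ∀ i, V i ≤ M := by
    intro i
    apply Subgroup.normalClosure_le_normal
    rintro _ ⟨k, _, rfl⟩
    exact (e k).2
  have hVun : ∀ a ∈ M, ∃ i, a ∈ V i := by
    intro a ha
    obtain ⟨k, hk⟩ := he ⟨a, ha⟩
    refine ⟨k + 1, Subgroup.subset_normalClosure ⟨k, Nat.lt_succ_self k, ?_⟩⟩
    show ((e k : M) : G) = a
    rw [hk]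
  have hVne : ∀ i, ¬ M ≤ V i := by
    intro i h
    apply hMf
    refine ⟨(fun k => (e k : G)) '' {k | k < i}, (Set.finite_lt_nat i).image _, ?_⟩
    exact le_antisymm h (hVM i)
  -- admissible subgroups
  let Adm : Subgroup G → Prop := fun B => B.Normal ∧ B ≤ M ∧ ∀ i, ¬ M ≤ V i ⊔ B
  let 𝒟 : Set (Subgroup G) := {D | ∃ (B : Subgroup G) (hB : B.Normal), Adm B ∧
    D = M ⊔ cen M B hM hB}
  have hDn : ∀ D ∈ 𝒟, D.Normal := by
    rintro D ⟨B, hB, _, rfl⟩
    haveI := cen_normal M B hM hB
    infer_instance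
  have hDM : ∀ D ∈ 𝒟, M ≤ D := by
    rintro D ⟨B, hB, _, rfl⟩
    exact le_sup_left
  have hbot : Adm ⊥ := ⟨inferInstance, bot_le, fun i h => hVne i (by rwa [sup_bot_eq] at h)⟩
  have hzorn2 := zorn_le_nonempty₀ 𝒟 (by
    intro c hcs hc K hK
    have hne : c.Nonempty := ⟨K, hK⟩
    have hn : ∀ N ∈ c, N.Normal := fun N hN => hDn N (hcs hN)
    by_cases h : sSup c ≤ M
    · refine ⟨K, hcs hK, fun z hz => ?_⟩
      exact ((le_sSup hz).trans h).trans (hDM K (hcs hK))
    · have h1 : M ≤ sSup c := (hDM K (hcs hK)).trans (le_sSup hK)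
      have h2 := sSup_mem_of_nfg c hc hne hn (hbig _ (sSup_chain_normal c hc hne hn) h1 h)
      exact ⟨sSup c, hcs h2, fun z hz => le_sSup hz⟩)
    (M ⊔ cen M ⊥ hM inferInstance) ⟨⊥, inferInstance, hbot, rfl⟩
  obtain ⟨D, _, hDmax⟩ := hzorn2
  obtain ⟨B, hB, hBadm, hDB⟩ := hDmax.prop
  obtain ⟨_, hBM, hBne⟩ := hBadm
  haveI hDn' : D.Normal := hDn D hDmax.prop
  -- enlarging B
  have henl : ∀ B' : Subgroup G, B'.Normal → B ≤ B' → B' ≤ M → (∀ i, ¬ M ≤ V i ⊔ B') →
      ∀ x, (∀ a ∈ M, ⁅x, a⁆ ∈ B') → x ∈ D := by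
    intro B' hB' hBB' hB'M hB'ne x hx
    have h1 : M ⊔ cen M B' hM hB' ∈ 𝒟 := ⟨B', hB', ⟨hB', hB'M, hB'ne⟩, rfl⟩
    have h2 : D ≤ M ⊔ cen M B' hM hB' := by
      rw [hDB]
      refine sup_le_sup_left ?_ _
      intro y hy a ha
      exact hBB' (hy a ha)
    have h3 := hDmax.le_of_ge h1 h2
    exact h3 (Subgroup.mem_sup_right hx)
  -- D has finite index
  have hDfin : D.FiniteIndex := by
    by_contra hnf
    have hinf : Infinite (G ⧸ D) := by
      by_contra h
      rw [not_infinite_iff_finite] at h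
      exact hnf (Subgroup.finiteIndex_of_finite_quotient)
    let emb : ℕ ↪ G ⧸ D := Infinite.natEmbedding _
    choose g hg using fun n => QuotientGroup.mk'_surjective D (emb n)
    refine no_seq hNB hfg (fun i => V i ⊔ B) (fun i => inferInstance)
      (fun i j hij => sup_le_sup_right (hVmono hij) _) M hM (fun i => sup_le (hVM i) hBM)
      (fun a ha => by
        obtain ⟨i, hi⟩ := hVun a ha
        exact ⟨i, Subgroup.mem_sup_left hi⟩) hBne g ?_
    intro m j hmj
    by_contra hcon2
    push Not at hcon2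
    set L : Subgroup G := Subgroup.normalClosure {g m * (g j)⁻¹} with hL
    haveI hLn : L.Normal := Subgroup.normalClosure_normal
    have hx : g m * (g j)⁻¹ ∈ D := by
      refine henl (B ⊔ ⁅M, L⁆) inferInstance le_sup_left
        (sup_le hBM (Subgroup.commutator_le_left _ _)) ?_ _ ?_
      · intro i h
        apply hcon2 i
        rwa [sup_assoc]
      · intro a ha
        apply Subgroup.mem_sup_right
        rw [Subgroup.commutator_comm]
        exact Subgroup.commutator_mem_commutator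
          (Subgroup.subset_normalClosure (Set.mem_singleton _)) ha
    apply hmj
    apply emb.injective
    rw [← hg m, ← hg j]
    have h1 : QuotientGroup.mk' D (g m * (g j)⁻¹) = 1 := (QuotientGroup.eq_one_iff _).2 hx
    rw [map_mul, map_inv] at h1
    exact mul_inv_eq_one.1 h1
  haveI := hDfin
  -- D is finitely generated, hence D = V j ⊔ cen
  have hDfg : Group.FG D := Subgroup.fg_of_index_ne_zero D
  haveI hcn : (cen M B hM hB).Normal := cen_normal M B hM hB
  obtain ⟨j, hj⟩ : ∃ j, D ≤ V j ⊔ cen M B hM hB := by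
    obtain ⟨X, hX, hXfin⟩ := (Subgroup.fg_iff D).1 ((Group.fg_iff_subgroup_fg D).1 hDfg)
    obtain ⟨j, hj⟩ := finite_subset_mono (fun j => ((V j ⊔ cen M B hM hB : Subgroup G) : Set G))
      (fun i j hij => sup_le_sup_right (hVmono hij) _) X hXfin (by
        intro x hx
        have h1 : x ∈ D := by
          rw [← hX]
          exact Subgroup.subset_closure hx
        rw [hDB, Subgroup.mem_sup_of_normal_left] at h1
        obtain ⟨a, ha, b, hb, rfl⟩ := h1
        obtain ⟨i, hi⟩ := hVun a ha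
        exact ⟨i, Subgroup.mul_mem _ (Subgroup.mem_sup_left hi) (Subgroup.mem_sup_right hb)⟩)
    refine ⟨j, ?_⟩
    rw [← hX, Subgroup.closure_le]
    exact hj
  have hMM : ⁅M, M⁆ ≤ V j ⊔ B := by
    have h1 : M ≤ V j ⊔ cen M B hM hB := (hDM D hDmax.prop).trans hj
    refine (Subgroup.commutator_mono h1 le_rfl).trans ?_
    exact (comm_sup_le _ _ _ (hVn j) hcn hM).trans (sup_le_sup_left (cen_comm M B hM hB) _)
  -- the abelian quotient
  obtain ⟨B', hB'def⟩ : ∃ B' : Subgroup G, B' = B ⊔ ⁅M, M⁆ := ⟨_, rfl⟩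
  have hB'n : B'.Normal := by rw [hB'def]; infer_instance
  have hB'M : B' ≤ M := by
    rw [hB'def]
    exact sup_le hBM (Subgroup.commutator_le_left _ _)
  have hB'ne : ∀ i, ¬ M ≤ V i ⊔ B' := by
    intro i h
    apply hBne (max i j)
    refine h.trans (sup_le ((hVmono (le_max_left _ _)).trans le_sup_left) ?_)
    rw [hB'def]
    refine sup_le le_sup_right (hMM.trans ?_)
    exact sup_le_sup_right (hVmono (le_max_right _ _)) _
  have hDC : D ≤ cen M B' hM hB'n := by
    rw [hDB]
    apply sup_le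
    · intro x hx a ha
      rw [hB'def]
      exact Subgroup.mem_sup_right (Subgroup.commutator_mem_commutator hx ha)
    · intro x hx a ha
      rw [hB'def]
      exact Subgroup.mem_sup_left (hx a ha)
  have hCfin : (cen M B' hM hB'n).FiniteIndex := Subgroup.finiteIndex_of_le hDC
  obtain ⟨k, hk⟩ := chain_factor2 hNB hfg B' M (cen M B' hM hB'n) hB'n hM hB'M hCfin
    (by
      intro a ha b hb
      rw [hB'def]
      exact Subgroup.mem_sup_right (Subgroup.commutator_mem_commutator ha.1 hb.1))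
    (by
      intro a ha c hc
      have h1 : c ∈ cen M B' hM hB'n := by
        have h2 : ⁅cen M B' hM hB'n, cen M B' hM hB'n⁆ ≤ cen M B' hM hB'n := by
          haveI := cen_normal M B' hM hB'n
          exact Subgroup.commutator_le_left _ _
        exact h2 hc
      have h2 := h1 a ha.1
      rw [← commutatorElement_inv]
      exact B'.inv_mem h2)
    (fun i => V i ⊔ B') (fun i => inferInstance)
    (fun i j hij => sup_le_sup_right (hVmono hij) _) (fun i => le_sup_right)
    (fun i => sup_le (hVM i) hB'M)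
  apply hB'ne k
  intro a ha
  obtain ⟨i, hi⟩ := hVun a ha
  have h1 : a ∈ V (max i k) ⊔ B' := Subgroup.mem_sup_left (hVmono (le_max_left _ _) hi)
  have h2 := hk (max i k) (le_max_right _ _)
  rw [h2] at h1
  exact h1

end Pool.Agent.H975R3
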