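import Pool.Agent.H975R3.MaxN

set_option autoImplicit false

namespace Pool.Agent.H975R3

open Pool.Agent.Helper730.SM

/-- if a finitely generated group has continuum many normal subgroups, then it has a family of
pairwise non-isomorphic quotients indexed by the sets of natural numbers -/
theorem family_of_big {H : Type} [Group H] (hfg : Group.FG H)
    (hbig : Big {N : Subgroup H // N.Normal}) :
    ∃ (F : Set ℕ → Subgroup H) (_ : ∀ s, (F s).Normal), ∀ s t,
      (∃ φ : H →* H ⧸ F t, Function.Surjective φ ∧ φ.ker = F s) → s = t := by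
  classical
  have := hfg
  have hcount : Countable H := countable_of_fg hfg
  obtain ⟨f', hf'⟩ := hbig
  let f : Set ℕ → Subgroup H := fun s => (f' s).1
  have hf : Function.Injective f := fun a b hab => hf' (Subtype.ext hab)
  have hn : ∀ s, (f s).Normal := fun s => (f' s).2
  -- the relation of having isomorphic quotients
  let R : Set ℕ → Set ℕ → Prop := fun s t =>
    ∃ φ : H →* H ⧸ (f t), Function.Surjective φ ∧ φ.ker = (f s)
  have hiso : ∀ s t, R s t → ∀ (K : Type) [Group K] (ψ : H →* K), Function.Surjective ψ →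
      ψ.ker = (f t) → ∃ φ : H →* K, Function.Surjective φ ∧ φ.ker = (f s) := by
    rintro s t ⟨φ, hφ, hk⟩ K _ ψ hψ hψk
    have hle : (f t) ≤ ψ.ker := hψk.ge
    let q : H ⧸ (f t) →* K := QuotientGroup.lift (f t) ψ (fun x hx => hle hx)
    have hqs : Function.Surjective q := by
      intro k
      obtain ⟨x, hx⟩ := hψ k
      exact ⟨QuotientGroup.mk x, hx⟩
    have hqi : Function.Injective q := by
      rw [injective_iff_map_eq_one]
      intro x hx
      induction x using QuotientGroup.induction_on with
      | H z =>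
        have : ψ z = 1 := hx
        have hz : z ∈ ψ.ker := this
        rw [hψk] at hz
        exact (QuotientGroup.eq_one_iff z).2 hz
    refine ⟨q.comp φ, hqs.comp hφ, ?_⟩
    ext x
    rw [MonoidHom.mem_ker, MonoidHom.comp_apply, ← hk, MonoidHom.mem_ker]
    exact map_eq_one_iff q hqi
  have hsymm : ∀ s t, R s t → R t s := by
    rintro s t ⟨φ, hφ, hk⟩
    let e := QuotientGroup.quotientKerEquivOfSurjective φ hφ
    let e2 : H ⧸ φ.ker ≃* H ⧸ (f s) := QuotientGroup.quotientMulEquivOfEq hk
    let ψ : H →* H ⧸ (f s) :=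
      (e2.toMonoidHom.comp e.symm.toMonoidHom).comp (QuotientGroup.mk' (f t))
    refine ⟨ψ, ?_, ?_⟩
    · exact (e2.surjective.comp e.symm.surjective).comp (QuotientGroup.mk'_surjective _)
    · ext x
      rw [MonoidHom.mem_ker]
      have h1 : ψ x = e2 (e.symm (QuotientGroup.mk' (f t) x)) := rfl
      rw [h1, map_eq_one_iff _ e2.injective, map_eq_one_iff _ e.symm.injective]
      exact QuotientGroup.eq_one_iff x
  have hrefl : ∀ s, R s s := by
    intro s
    exact ⟨QuotientGroup.mk' (f s), QuotientGroup.mk'_surjective _, QuotientGroup.ker_mk' _⟩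
  have htrans : ∀ s t u, R s t → R t u → R s u := by
    rintro s t u h1 ⟨ψ, hψ, hψk⟩
    exact hiso s t h1 _ ψ hψ hψk
  let st : Setoid (Set ℕ) := ⟨R, hrefl, fun {a b} h => hsymm a b h,
    fun {a b c} h1 h2 => htrans a b c h1 h2⟩
  -- the classes are countable
  have hcls : ∀ q : Quotient st,
      Cardinal.mk ((fun s : Set ℕ => (Quotient.mk st s)) ⁻¹' {q}) ≤ Cardinal.aleph0 := by
    intro q
    induction q using Quotient.inductionOn with
    | h t =>
      have key : ∀ s : ((fun s : Set ℕ => (Quotient.mk st s)) ⁻¹' {Quotient.mk st t}),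
          ∃ φ : H →* H ⧸ (f t), Function.Surjective φ ∧ φ.ker = (f s.1) := by
        intro s
        have hs : Quotient.mk st s.1 = Quotient.mk st t := s.2
        have : R s.1 t := Quotient.exact hs
        exact this
      choose φ hφs hφk using key
      have : Countable (H ⧸ f t) := (QuotientGroup.mk'_surjective (f t)).countable
      have : Countable (H →* H ⧸ (f t)) := countable_hom hfg
      have hinj : Function.Injective φ := by
        intro a b hab
        apply Subtype.ext
        apply hf
        rw [← hφk a, ← hφk b, hab]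
      have := hinj.countable
      exact Cardinal.mk_le_aleph0
  have hle := Cardinal.mk_le_mk_mul_of_mk_preimage_le (fun s : Set ℕ => (Quotient.mk st s)) hcls
  have hcont : Cardinal.mk (Set ℕ) ≤ Cardinal.mk (Quotient st) := by
    by_contra hlt
    push Not at hlt
    have h2 : Cardinal.aleph0 < Cardinal.mk (Set ℕ) := by
      rw [Cardinal.mk_set, Cardinal.mk_nat]
      exact Cardinal.cantor _
    have h3 := Cardinal.mul_lt_of_lt h2.le hlt h2
    exact absurd hle (not_le.2 h3)
  obtain ⟨g⟩ := hcont
  refine ⟨fun s => f (Quotient.out (g s)), fun s => hn _, ?_⟩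
  rintro s t h
  have h1 : R (Quotient.out (g s)) (Quotient.out (g t)) := h
  have h2 : Quotient.mk st (Quotient.out (g s)) = Quotient.mk st (Quotient.out (g t)) :=
    Quotient.sound h1
  rw [Quotient.out_eq, Quotient.out_eq] at h2
  exact g.injective h2

/-- a variety with fewer than continuum many finitely generated groups -/
theorem nb_of_lt_continuum (S : Set (FreeGroup ℕ))
    (hS : ¬ ∃ (G : Set ℕ → Type) (_ : ∀ s, Group (G s)),
          (∀ s, Group.FG (G s)) ∧
          (∀ s, ∀ w ∈ S, ∀ f : ℕ → G s, FreeGroup.lift f w = 1) ∧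
          (∀ s t, Nonempty (G s ≃* G t) → s = t))
    (G : Type) [Group G] (hG : ∀ w ∈ S, ∀ f : ℕ → G, FreeGroup.lift f w = 1) : NB G := by
  intro H _ hfg hvar hbig
  obtain ⟨F, hFn, hF⟩ := family_of_big hfg hbig
  apply hS
  have hH : ∀ w ∈ S, ∀ f : FreeGroup ℕ →* H, f w = 1 := by
    intro w hw
    refine hvar w ?_
    intro f
    have h1 : f = FreeGroup.lift (fun n => f (FreeGroup.of n)) := by
      ext n
      simp
    rw [h1]
    exact hG w hw _
  refine ⟨fun s => H ⧸ (F s), fun s => inferInstance, ?_, ?_, ?_⟩
  · intro s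
    haveI := hfg
    exact QuotientGroup.fg _
  · intro s w hw f
    choose y hy using fun n => QuotientGroup.mk'_surjective (F s) (f n)
    have h1 : FreeGroup.lift f = (QuotientGroup.mk' (F s)).comp (FreeGroup.lift y) := by
      ext n
      simpa using (hy n).symm
    rw [h1, MonoidHom.comp_apply, hH w hw, map_one]
  · rintro s t ⟨e⟩
    apply hF s t
    refine ⟨e.toMonoidHom.comp (QuotientGroup.mk' (F s)), ?_, ?_⟩
    · exact e.surjective.comp (QuotientGroup.mk'_surjective _)
    · ext x
      rw [MonoidHom.mem_ker, MonoidHom.comp_apply]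
      have h1 : e.toMonoidHom ((QuotientGroup.mk' (F s)) x) = 1 ↔
        (QuotientGroup.mk' (F s)) x = 1 := e.map_eq_one_iff
      rw [h1]
      exact QuotientGroup.eq_one_iff x

end Pool.Agent.H975R3
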