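import Pool.Agent.Helper730.SNB

set_option autoImplicit false

open scoped commutatorElement

namespace Pool.Agent.H975R3

open Pool.Agent.Helper730.SM

theorem inVar_pi {G : Type} [Group G] {K : ℕ → Type} [∀ m, Group (K m)]
    (h : ∀ m, InVar G (K m)) : InVar G (∀ m, K m) := by
  intro w hw f
  funext m
  exact h m w hw ((Pi.evalMonoidHom K m).comp f)

/-- If a subgroup `H` of a countable product does not have continuum many normal subgroups then
beyond some coordinate there is no nontrivial element of `H` of finite support. -/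
theorem star {K : ℕ → Type} [∀ m, Group (K m)] (H : Subgroup (∀ m, K m))
    (hH : ¬ Big {N : Subgroup H // N.Normal}) :
    ∃ i : ℕ, ∀ h ∈ H, (∃ n, ∀ m, n ≤ m → h m = 1) → (∀ m, m < i → h m = 1) → h = 1 := by
  classical
  by_contra hcon
  push Not at hcon
  apply hH
  choose f hf hfin hlow hne using hcon
  choose N hN using hfin
  let s : ℕ → ℕ := fun n => Nat.rec 0 (fun _ t => N t) n
  have hs : ∀ n, s (n + 1) = N (s n) := fun n => rfl
  have hNlt : ∀ i, i < N i := by
    intro i
    by_contra hle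
    push Not at hle
    apply hne i
    funext m
    by_cases hm : m < i
    · exact hlow i m hm
    · exact hN i m (by omega)
  have hsmono : Monotone s := monotone_nat_of_le_succ (fun n => by
    rw [hs]; exact (hNlt _).le)
  let v : ℕ → (∀ m, K m) := fun k => f (s k)
  have hvH : ∀ k, v k ∈ H := fun k => hf _
  have hdisj : ∀ k l m, k ≠ l → v k m ≠ 1 → v l m = 1 := by
    intro k l m hkl hk
    have h1 : s k ≤ m := by
      by_contra hlt
      push Not at hlt
      exact hk (hlow _ m hlt)
    have h2 : m < N (s k) := by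
      by_contra hle
      push Not at hle
      exact hk (hN _ m hle)
    rcases lt_or_gt_of_ne hkl with h | h
    · apply hlow
      have h3 : s (k + 1) ≤ s l := hsmono h
      rw [hs] at h3
      omega
    · apply hN
      have h3 : s (l + 1) ≤ s k := hsmono h
      rw [hs] at h3
      omega
  have hvne : ∀ k, ∃ m, v k m ≠ 1 := by
    intro k
    by_contra hall
    push Not at hall
    exact hne (s k) (funext hall)
  let NS : Set ℕ → Subgroup H := fun S =>
    { carrier := {h | ∀ k, k ∉ S → ∀ m, v k m ≠ 1 → (h : ∀ m, K m) m = 1}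
      mul_mem' := by
        intro a b ha hb k hk m hm
        show (a : ∀ m, K m) m * (b : ∀ m, K m) m = 1
        rw [ha k hk m hm, hb k hk m hm, mul_one]
      one_mem' := fun k _ m _ => rfl
      inv_mem' := by
        intro a ha k hk m hm
        show ((a : ∀ m, K m) m)⁻¹ = 1
        rw [ha k hk m hm, inv_one] }
  have hNSn : ∀ S, (NS S).Normal := by
    intro S
    constructor
    intro a ha g k hk m hm
    show (g : ∀ m, K m) m * (a : ∀ m, K m) m * ((g : ∀ m, K m) m)⁻¹ = 1
    rw [ha k hk m hm, mul_one, mul_inv_cancel]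
  refine ⟨fun S => ⟨NS S, hNSn S⟩, ?_⟩
  have key : ∀ S S' : Set ℕ, NS S = NS S' → S ⊆ S' := by
    intro S S' hSS k hk
    by_contra hk'
    have h1 : (⟨v k, hvH k⟩ : H) ∈ NS S := by
      intro l hl m hm
      have hkl : l ≠ k := fun h => hl (h ▸ hk)
      exact hdisj l k m hkl hm
    rw [hSS] at h1
    obtain ⟨m, hm⟩ := hvne k
    exact hm (h1 k hk' m hm)
  intro S S' h
  have h' : NS S = NS S' := congrArg Subtype.val h
  exact Set.Subset.antisymm (key S S' h') (key S' S h'.symm)

theorem comm_sup_le {G : Type} [Group G] (A B C : Subgroup G) (hA : A.Normal) (hB : B.Normal)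
    (hC : C.Normal) : ⁅A ⊔ B, C⁆ ≤ A ⊔ ⁅B, C⁆ := by
  haveI := hA
  haveI := hB
  haveI := hC
  rw [Subgroup.commutator_le]
  intro x hx c hc
  rw [Subgroup.mem_sup_of_normal_left] at hx
  obtain ⟨a, ha, b, hb, rfl⟩ := hx
  have h1 : ⁅a * b, c⁆ = (a * ⁅b, c⁆ * a⁻¹) * ⁅a, c⁆ := by
    simp only [commutatorElement_def]
    group
  rw [h1]
  apply Subgroup.mul_mem
  · have h2 : ⁅b, c⁆ ∈ ⁅B, C⁆ := Subgroup.commutator_mem_commutator hb hc
    exact Subgroup.mem_sup_right ((Subgroup.commutator_normal B C).conj_mem _ h2 a)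
  · have h2 : ⁅a, c⁆ ∈ A := Subgroup.commutator_le_left A C
      (Subgroup.commutator_mem_commutator ha hc)
    exact Subgroup.mem_sup_left h2

/-- the main step: there is no infinite sequence with all differences good -/
theorem no_seq {G : Type} [Group G] (hNB : NB G) (hfg : Group.FG G) (W : ℕ → Subgroup G)
    (hW : ∀ i, (W i).Normal) (hmono : Monotone W) (M : Subgroup G) (hM : M.Normal)
    (hle : ∀ i, W i ≤ M) (hun : ∀ a ∈ M, ∃ i, a ∈ W i) (hne : ∀ i, ¬ M ≤ W i)
    (g : ℕ → G)
    (hgood : ∀ m j, m ≠ j → ∃ a, M ≤ W a ⊔ ⁅M, Subgroup.normalClosure {g m * (g j)⁻¹}⁆) :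
    False := by
  classical
  haveI := hfg
  haveI := hM
  haveI hW' : ∀ i, (W i).Normal := hW
  let K : ℕ → Type := fun m => G ⧸ W m
  let c : G →* (∀ m, K m) := MonoidHom.pi (fun m => QuotientGroup.mk' (W m))
  have hc : ∀ x m, c x m = QuotientGroup.mk' (W m) x := fun x m => rfl
  let t : ∀ m, K m := fun m => QuotientGroup.mk' (W m) (g m)
  obtain ⟨H, hHdef⟩ : ∃ H : Subgroup (∀ m, K m), H = c.range ⊔ Subgroup.zpowers t := ⟨_, rfl⟩
  have hHfg : H.FG := by
    rw [hHdef]
    apply Subgroup.FG.sup
    · exact (Group.fg_iff_subgroup_fg _).1 (Group.fg_range c)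
    · rw [Subgroup.zpowers_eq_closure]
      exact ⟨{t}, by simp⟩
  have hcH : ∀ x, c x ∈ H := by
    intro x
    rw [hHdef]
    exact Subgroup.mem_sup_left ⟨x, rfl⟩
  have htH : t ∈ H := by
    rw [hHdef]
    exact Subgroup.mem_sup_right (Subgroup.mem_zpowers t)
  have hinv : InVar G (∀ m, K m) := inVar_pi (fun m =>
    inVar_of_surjective (inVar_self G) (QuotientGroup.mk' (W m)) (QuotientGroup.mk'_surjective _))
  have hbig : ¬ Big {N : Subgroup H // N.Normal} :=
    hNB H ((Group.fg_iff_subgroup_fg H).2 hHfg)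
      (inVar_of_injective hinv H.subtype H.subtype_injective)
  obtain ⟨m, hm⟩ := star H hbig
  -- evaluation homs
  let ev : ∀ j, H →* K j := fun j => (Pi.evalMonoidHom K j).comp H.subtype
  have hev : ∀ j (h : H), ev j h = (h : ∀ m, K m) j := fun j h => rfl
  let T : ℕ → Subgroup H := fun j => (ev j).ker
  let K0 : Subgroup H :=
    { carrier := {h | ∃ n, ∀ k, n ≤ k → (h : ∀ m, K m) k = 1}
      mul_mem' := by
        rintro a b ⟨n, hn⟩ ⟨n', hn'⟩
        refine ⟨max n n', fun k hk => ?_⟩
        show (a : ∀ m, K m) k * (b : ∀ m, K m) k = 1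
        rw [hn k ((le_max_left _ _).trans hk), hn' k ((le_max_right _ _).trans hk), mul_one]
      one_mem' := ⟨0, fun k _ => rfl⟩
      inv_mem' := by
        rintro a ⟨n, hn⟩
        refine ⟨n, fun k hk => ?_⟩
        show ((a : ∀ m, K m) k)⁻¹ = 1
        rw [hn k hk, inv_one] }
  haveI hK0 : K0.Normal := by
    constructor
    rintro a ⟨n, hn⟩ x
    refine ⟨n, fun k hk => ?_⟩
    show (x : ∀ m, K m) k * (a : ∀ m, K m) k * ((x : ∀ m, K m) k)⁻¹ = 1
    rw [hn k hk, mul_one, mul_inv_cancel]
  haveI hT : ∀ j, (T j).Normal := fun j => inferInstance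
  let E : ℕ → Subgroup H := fun n => Nat.rec K0 (fun j S => ⁅S, T j⁆) n
  have hE0 : E 0 = K0 := rfl
  have hE : ∀ j, E (j + 1) = ⁅E j, T j⁆ := fun j => rfl
  have hEn : ∀ j, (E j).Normal := by
    intro j
    induction j with
    | zero => rw [hE0]; exact hK0
    | succ j ih =>
      rw [hE]
      exact @Subgroup.commutator_normal _ _ (E j) (T j) ih (hT j)
  have hEK : ∀ j, E j ≤ K0 := by
    intro j
    induction j with
    | zero => rw [hE0]
    | succ j ih =>
      rw [hE]
      exact (@Subgroup.commutator_le_left _ _ (E j) (T j) (hEn j)).trans ih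
  have hET : ∀ j l, l < j → E j ≤ T l := by
    intro j
    induction j with
    | zero => intro l hl; omega
    | succ j ih =>
      intro l hl
      rw [hE]
      rcases Nat.lt_succ_iff_lt_or_eq.1 hl with h | h
      · exact (@Subgroup.commutator_le_left _ _ (E j) (T j) (hEn j)).trans (ih l h)
      · rw [h]
        exact @Subgroup.commutator_le_right _ _ (E j) (T j) (hT j)
  have hEbot : E m = ⊥ := by
    rw [eq_bot_iff]
    intro h hh
    rw [Subgroup.mem_bot]
    apply Subtype.ext
    apply hm _ h.2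
    · exact hEK m hh
    · intro j hj
      have h1 := hET m j hj hh
      exact (MonoidHom.mem_ker).1 h1
  have hevsurj : Function.Surjective (ev m) := by
    intro y
    obtain ⟨x, rfl⟩ := QuotientGroup.mk'_surjective (W m) y
    exact ⟨⟨c x, hcH x⟩, rfl⟩
  let L : ℕ → Subgroup G := fun j => Subgroup.normalClosure {g m * (g j)⁻¹}
  let F : ℕ → Subgroup G := fun n => Nat.rec M (fun j S => ⁅S, L j⁆) n
  have hF0 : F 0 = M := rfl
  have hF : ∀ j, F (j + 1) = ⁅F j, L j⁆ := fun j => rfl
  haveI hLn : ∀ j, (L j).Normal := fun j => Subgroup.normalClosure_normal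
  have hFn : ∀ j, (F j).Normal := by
    intro j
    induction j with
    | zero => rw [hF0]; exact hM
    | succ j ih =>
      rw [hF]
      exact @Subgroup.commutator_normal _ _ (F j) (L j) ih (hLn j)
  have hLT : ∀ j, (L j).map (QuotientGroup.mk' (W m)) ≤ (T j).map (ev m) := by
    intro j
    haveI : ((T j).map (ev m)).Normal := (hT j).map _ hevsurj
    rw [Subgroup.map_le_iff_le_comap]
    apply Subgroup.normalClosure_le_normal
    rw [Set.singleton_subset_iff]
    have h1 : t * (c (g j))⁻¹ ∈ H := H.mul_mem htH (H.inv_mem (hcH _))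
    refine ⟨⟨t * (c (g j))⁻¹, h1⟩, ?_, ?_⟩
    · show (ev j) _ = 1
      show t j * (c (g j) j)⁻¹ = 1
      show QuotientGroup.mk' (W j) (g j) * (QuotientGroup.mk' (W j) (g j))⁻¹ = 1
      rw [mul_inv_cancel]
    · show t m * (c (g j) m)⁻¹ = QuotientGroup.mk' (W m) (g m * (g j)⁻¹)
      rw [map_mul, map_inv]
      rfl
  have hFE : ∀ j, (F j).map (QuotientGroup.mk' (W m)) ≤ (E j).map (ev m) := by
    intro j
    induction j with
    | zero =>
      rw [hF0, hE0]
      rintro _ ⟨a, ha, rfl⟩
      refine ⟨⟨c a, hcH a⟩, ?_, rfl⟩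
      obtain ⟨i, hi⟩ := hun a ha
      refine ⟨i, fun k hk => ?_⟩
      show QuotientGroup.mk' (W k) a = 1
      exact (QuotientGroup.eq_one_iff _).2 (hmono hk hi)
    | succ j ih =>
      rw [hF, hE, Subgroup.map_commutator, Subgroup.map_commutator]
      exact Subgroup.commutator_mono ih (hLT j)
  have hFW : F m ≤ W m := by
    have h1 := hFE m
    rw [hEbot, Subgroup.map_bot, le_bot_iff, Subgroup.map_eq_bot_iff, QuotientGroup.ker_mk'] at h1
    exact h1
  have hcov : ∀ j, j ≤ m → ∃ a, M ≤ W a ⊔ F j := by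
    intro j
    induction j with
    | zero => intro _; exact ⟨0, by rw [hF0]; exact le_sup_right⟩
    | succ j ih =>
      intro hj
      obtain ⟨a, ha⟩ := ih (by omega)
      obtain ⟨b, hb⟩ := hgood m j (by omega)
      refine ⟨max a b, ?_⟩
      haveI := hFn j
      have h1 : ⁅M, L j⁆ ≤ W a ⊔ F (j + 1) := by
        rw [hF]
        exact (Subgroup.commutator_mono ha le_rfl).trans
          (comm_sup_le (W a) (F j) (L j) (hW a) (hFn j) (hLn j))
      refine hb.trans (sup_le ?_ ?_)
      · exact (hmono (le_max_right a b)).trans le_sup_left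
      · exact h1.trans (sup_le_sup_right (hmono (le_max_left a b)) _)
  obtain ⟨a, ha⟩ := hcov m le_rfl
  apply hne (max a m)
  refine ha.trans (sup_le (hmono (le_max_left _ _)) (hFW.trans (hmono (le_max_right _ _))))

end Pool.Agent.H975R3
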